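import Pool.Agent.TH982.Chain

set_option autoImplicit false

/-!
# The discrete Gaussian chain: the variance grows at least like `n^{α-2}` at every temperature

`Conf n` is the set of integer configurations on `ℤ` vanishing outside `[-n, n]`, `H` is the
long-range Hamiltonian (sum over unordered pairs). For every `α ∈ (2,3)` and every `β > 0` there is
`c > 0` with `Var_{n,β}(ψ_0) ≥ c n^{α-2}` for all `n ≥ 1`; the power is that of the real-valued
Gaussian chain. (The mean of `ψ_0` is `0` by the symmetry `ψ ↦ -ψ`.)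
-/

namespace Pool.Agent.Results.MP_57c4e5_pr.PowerLawGrowth

open Filter Topology Pool.Agent.TH982.Chain Pool.Agent.TH982.GWt Pool.Agent.TH982.Eng

/-- Integer-valued configurations on `ℤ` that vanish outside `{-n, …, n}`. -/
abbrev Conf (n : ℕ) := {ψ : ℤ → ℤ // ∀ x : ℤ, (n : ℤ) < |x| → ψ x = 0}

/-- `H(ψ) = ∑_{x < y} (ψ_x - ψ_y)² / |x - y|^α`. -/
noncomputable def H (α : ℝ) (ψ : ℤ → ℤ) : ℝ :=
  ∑' p : ℤ × ℤ, if p.1 < p.2 then
    (((ψ p.1 : ℤ) : ℝ) - ((ψ p.2 : ℤ) : ℝ)) ^ 2 / (((p.2 - p.1 : ℤ) : ℝ)) ^ α else 0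

/-- The partition function. -/
noncomputable def Z (α β : ℝ) (n : ℕ) : ℝ := ∑' ψ : Conf n, Real.exp (-β * H α ψ.1)

/-- Mean of a function under `P_{n,β}`. -/
noncomputable def mean (α β : ℝ) (n : ℕ) (f : Conf n → ℝ) : ℝ :=
  (∑' ψ : Conf n, f ψ * Real.exp (-β * H α ψ.1)) / Z α β n

/-- Variance of `ψ_0` under `P_{n,β}`. -/
noncomputable def Var0 (α β : ℝ) (n : ℕ) : ℝ :=
  mean α β n (fun ψ => ((ψ.1 0 : ℤ) : ℝ) ^ 2) - (mean α β n (fun ψ => ((ψ.1 0 : ℤ) : ℝ))) ^ 2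

lemma En_eq {α : ℝ} (hα : 1 < α) {n : ℕ} (ψ : Conf n) : En α (toR ψ.1) = 2 * H α ψ.1 := by
  have hs := summ_E hα (toR_FS (N := n) ψ)
  set f : ℤ × ℤ → ℝ := fun p => Jc α p * (toR ψ.1 p.1 - toR ψ.1 p.2) ^ 2 with hf
  have hf0 : ∀ p, 0 ≤ f p := fun p => mul_nonneg (Jc_nonneg α p) (sq_nonneg _)
  set g : ℤ × ℤ → ℝ := fun p => if p.1 < p.2 then f p else 0 with hg
  have hgs : Summable g := Summable.of_nonneg_of_le (fun p => by
      simp only [hg]; split_ifs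
      · exact hf0 p
      · exact le_rfl) (fun p => by
      simp only [hg]; split_ifs
      · exact le_rfl
      · exact hf0 p) hs
  have hsw : Summable fun p => g (Equiv.prodComm ℤ ℤ p) := hgs.comp_injective (Equiv.injective _)
  have esw : ∑' p, g (Equiv.prodComm ℤ ℤ p) = ∑' p, g p := (Equiv.prodComm ℤ ℤ).tsum_eq g
  have hsplit : ∀ p, f p = g p + g (Equiv.prodComm ℤ ℤ p) := by
    rintro ⟨x, y⟩
    simp only [hg, Equiv.prodComm_apply, Prod.swap_prod_mk]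
    have hsym : f (y, x) = f (x, y) := by
      simp only [hf]
      rw [← Jc_swap α (x, y)]
      ring
    rcases lt_trichotomy x y with h | h | h
    · rw [if_pos h, if_neg (not_lt.2 h.le), add_zero]
    · subst h
      simp [hf]
    · rw [if_neg (not_lt.2 h.le), if_pos h, zero_add, hsym]
  have h1 : En α (toR ψ.1) = ∑' p, f p := rfl
  rw [h1, tsum_congr hsplit, hgs.tsum_add hsw, esw, two_mul]
  have h2 : ∑' p, g p = H α ψ.1 := by
    unfold H
    refine tsum_congr fun p => ?_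
    simp only [hg]
    split_ifs with h
    · simp only [hf, Jc, toR]
      have h3 : |((p.1 - p.2 : ℤ) : ℝ)| = ((p.2 - p.1 : ℤ) : ℝ) := by
        have : (0 : ℝ) < ((p.2 - p.1 : ℤ) : ℝ) := by exact_mod_cast (by omega : 0 < p.2 - p.1)
        rw [show ((p.1 - p.2 : ℤ) : ℝ) = -((p.2 - p.1 : ℤ) : ℝ) by push_cast; ring, abs_neg,
          abs_of_pos this]
      have h4 : (0 : ℝ) ≤ ((p.2 - p.1 : ℤ) : ℝ) := by exact_mod_cast (by omega : 0 ≤ p.2 - p.1)
      rw [h3, Real.rpow_neg h4]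
      ring
    · rfl
  rw [h2]

lemma weight_eq {α β : ℝ} (hα : 1 < α) {n : ℕ} (ψ : Conf n) :
    Real.exp (-β * H α ψ.1) = WN α (β / 2) n ψ := by
  unfold WN
  rw [En_eq hα ψ]
  congr 1; ring

lemma mean_zero {α β : ℝ} (n : ℕ) : mean α β n (fun ψ => ((ψ.1 0 : ℤ) : ℝ)) = 0 := by
  unfold mean
  let e : Conf n ≃ Conf n :=
    { toFun := fun ψ => ⟨fun x => -ψ.1 x, fun x hx => by simp [ψ.2 x hx]⟩
      invFun := fun ψ => ⟨fun x => -ψ.1 x, fun x hx => by simp [ψ.2 x hx]⟩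
      left_inv := fun ψ => by ext x; simp
      right_inv := fun ψ => by ext x; simp }
  have h := e.tsum_eq (fun ψ : Conf n => ((ψ.1 0 : ℤ) : ℝ) * Real.exp (-β * H α ψ.1))
  have h' : ∀ ψ : Conf n, (((e ψ).1 0 : ℤ) : ℝ) * Real.exp (-β * H α (e ψ).1) =
      -(((ψ.1 0 : ℤ) : ℝ) * Real.exp (-β * H α ψ.1)) := by
    intro ψ
    have hH : H α (e ψ).1 = H α ψ.1 := by
      unfold H
      refine tsum_congr fun p => ?_
      split_ifs
      · congr 1
        simp only [e, Equiv.coe_fn_mk]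
        push_cast; ring
      · rfl
    rw [hH]
    simp only [e, Equiv.coe_fn_mk]
    push_cast; ring
  simp_rw [h', tsum_neg] at h
  have h2 : ∑' ψ : Conf n, ((ψ.1 0 : ℤ) : ℝ) * Real.exp (-β * H α ψ.1) = 0 := by linarith
  rw [h2, zero_div]

theorem result (α : ℝ) (hα : 2 < α) (hα3 : α < 3) (β : ℝ) (hβ : 0 < β) :
    (∀ n : ℕ, (Summable fun ψ : Conf n => Real.exp (-β * H α ψ.1)) ∧
      Summable fun ψ : Conf n => ((ψ.1 0 : ℤ) : ℝ) ^ 2 * Real.exp (-β * H α ψ.1)) ∧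
    ∃ c : ℝ, 0 < c ∧ ∀ n : ℕ, 1 ≤ n → c * (n : ℝ) ^ (α - 2) ≤ Var0 α β n := by
  have hα1 : 1 < α := by linarith
  have hβ2 : 0 < β / 2 := by linarith
  refine ⟨fun n => ⟨?_, ?_⟩, vG (bb α (β / 2)) / 4, div_pos (vG_pos (bb_pos hα hα3 hβ2))
    (by norm_num), fun n hn => ?_⟩
  · simp_rw [weight_eq hα1]
    exact (WN_GW hα1 hβ2 n).sum
  · simp_rw [weight_eq hα1]
    exact (summable_f0 hα1 hβ2 n).congr fun ψ => mul_comm _ _
  · have h := growth hα hα3 hβ2 hn
    have e : Var0 α β n = m2 (f0 n) (WN α (β / 2) n) := by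
      unfold Var0
      rw [mean_zero]
      unfold mean Z m2
      simp_rw [weight_eq hα1]
      rw [zero_pow (by norm_num), sub_zero]
      congr 1
      exact tsum_congr fun ψ => mul_comm _ _
    rw [e]
    exact h

end Pool.Agent.Results.MP_57c4e5_pr.PowerLawGrowth
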